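import Mathlib

set_option autoImplicit false

namespace Pool.Agent.Results.MP_70625d_co.NoCommonBall

/-- The point `(x, y, 0, ..., 0)` of `R^(m+2)`. -/
noncomputable def pt (m : ℕ) (v : ℝ × ℝ) : EuclideanSpace ℝ (Fin (m + 2)) :=
  WithLp.toLp 2 (Fin.cons v.1 (Fin.cons v.2 (fun _ => 0)))

theorem pt_zero (m : ℕ) (v : ℝ × ℝ) : (pt m v) 0 = v.1 := rfl

theorem pt_one (m : ℕ) (v : ℝ × ℝ) : (pt m v) 1 = v.2 := rfl

theorem pt_succ (m : ℕ) (v : ℝ × ℝ) (i : Fin m) : (pt m v) i.succ.succ = 0 := rfl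

theorem dist_pt (m : ℕ) (v w : ℝ × ℝ) :
    dist (pt m v) (pt m w) = Real.sqrt ((v.1 - w.1) ^ 2 + (v.2 - w.2) ^ 2) := by
  rw [EuclideanSpace.dist_eq, Fin.sum_univ_succ, Fin.sum_univ_succ]
  congr 1
  have h : ∀ i : Fin m, dist ((pt m v) i.succ.succ) ((pt m w) i.succ.succ) ^ 2 = 0 := by
    intro i
    rw [pt_succ, pt_succ, dist_self]
    norm_num
  rw [Finset.sum_congr rfl (fun i _ => h i)]
  rw [show (Fin.succ (0 : Fin (m + 1))) = 1 from rfl, pt_zero, pt_zero, pt_one, pt_one,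
    Real.dist_eq, Real.dist_eq, sq_abs, sq_abs]
  simp

/-- the six points of the plane -/
noncomputable def P (t : ℝ) : Fin (2 * 3) → ℝ × ℝ :=
  ![(-(t ^ 2 - 4), 4 * t - 1), (-(t ^ 2 - 4), -(4 * t - 1)), (t ^ 2, 0), (0, -1), (0, 1), (0, 0)]

/-- dual weights -/
noncomputable def w (t : ℝ) : Fin (2 * 3) → ℝ :=
  ![t ^ 2 + 3, t ^ 2 + 3, t ^ 2 - (1 - 1 / t), 1, 1, 1 - 1 / t]

def sw : Equiv.Perm (Fin (2 * 3)) :=
  Function.Involutive.toPerm (fun i => i + 3) (by intro i; revert i; decide)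

theorem sqrt_le_of (x y : ℝ) (hy : 0 ≤ y) (h : x ≤ y ^ 2) : Real.sqrt x ≤ y :=
  Real.sqrt_le_iff.mpr ⟨hy, h⟩

theorem le_w (t : ℝ) (ht : 5 ≤ t) (i j : Fin (2 * 3)) (hij : i < j) :
    Real.sqrt (((P t i).1 - (P t j).1) ^ 2 + ((P t i).2 - (P t j).2) ^ 2) ≤ w t i + w t j := by
  have ht0 : (0 : ℝ) < t := by linarith
  obtain ⟨u, hu⟩ : ∃ u, u = 1 / t := ⟨_, rfl⟩
  have hut : u * t = 1 := by rw [hu]; field_simp
  have hu0 : 0 < u := by rw [hu]; positivity
  have hu1 : u ≤ 1 / 5 := by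
    rw [hu]; exact one_div_le_one_div_of_le (by norm_num) ht
  fin_cases i <;> fin_cases j <;>
    first
    | (exfalso; revert hij; decide)
    | (simp only [P, w, ← hu, Fin.reduceFinMk, Matrix.cons_val]
       refine sqrt_le_of _ _ ?_ ?_ <;> nlinarith [sq_nonneg (t - 2), sq_nonneg u])

/-- every distance is at least one -/
theorem one_le (t : ℝ) (ht : 5 ≤ t) (i j : Fin (2 * 3)) (hij : i < j) :
    1 ≤ Real.sqrt (((P t i).1 - (P t j).1) ^ 2 + ((P t i).2 - (P t j).2) ^ 2) := by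
  apply Real.le_sqrt_of_sq_le
  fin_cases i <;> fin_cases j <;>
    first
    | (exfalso; revert hij; decide)
    | (simp only [P, Fin.reduceFinMk, Matrix.cons_val]
       nlinarith [sq_nonneg (t - 2), mul_self_nonneg (t ^ 2 - 5), mul_self_nonneg t])

theorem matched (t : ℝ) (ht : 5 ≤ t) (i : Fin (2 * 3)) :
    Real.sqrt (((P t i).1 - (P t (sw i)).1) ^ 2 + ((P t i).2 - (P t (sw i)).2) ^ 2)
      = w t i + w t (sw i) := by
  have s0 : sw 0 = 3 := by decide
  have s1 : sw 1 = 4 := by decide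
  have s2 : sw 2 = 5 := by decide
  have s3 : sw 3 = 0 := by decide
  have s4 : sw 4 = 1 := by decide
  have s5 : sw 5 = 2 := by decide
  have e1 : Real.sqrt ((t ^ 2 + 4) ^ 2) = t ^ 2 + 4 := Real.sqrt_sq (by positivity)
  have e2 : Real.sqrt ((t ^ 2) ^ 2) = t ^ 2 := Real.sqrt_sq (by positivity)
  fin_cases i
  · show Real.sqrt (((P t 0).1 - (P t (sw 0)).1) ^ 2 + ((P t 0).2 - (P t (sw 0)).2) ^ 2)
      = w t 0 + w t (sw 0)
    rw [s0]
    simp only [P, w, Matrix.cons_val]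
    rw [show (-(t ^ 2 - 4) - 0) ^ 2 + (4 * t - 1 - -1) ^ 2 = (t ^ 2 + 4) ^ 2 by ring, e1]
    ring
  · show Real.sqrt (((P t 1).1 - (P t (sw 1)).1) ^ 2 + ((P t 1).2 - (P t (sw 1)).2) ^ 2)
      = w t 1 + w t (sw 1)
    rw [s1]
    simp only [P, w, Matrix.cons_val]
    rw [show (-(t ^ 2 - 4) - 0) ^ 2 + (-(4 * t - 1) - 1) ^ 2 = (t ^ 2 + 4) ^ 2 by ring, e1]
    ring
  · show Real.sqrt (((P t 2).1 - (P t (sw 2)).1) ^ 2 + ((P t 2).2 - (P t (sw 2)).2) ^ 2)
      = w t 2 + w t (sw 2)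
    rw [s2]
    simp only [P, w, Matrix.cons_val]
    rw [show (t ^ 2 - 0) ^ 2 + (0 - 0) ^ 2 = (t ^ 2) ^ 2 by ring, e2]
    ring
  · show Real.sqrt (((P t 3).1 - (P t (sw 3)).1) ^ 2 + ((P t 3).2 - (P t (sw 3)).2) ^ 2)
      = w t 3 + w t (sw 3)
    rw [s3]
    simp only [P, w, Matrix.cons_val]
    rw [show (0 - -(t ^ 2 - 4)) ^ 2 + (-1 - (4 * t - 1)) ^ 2 = (t ^ 2 + 4) ^ 2 by ring, e1]
    ring
  · show Real.sqrt (((P t 4).1 - (P t (sw 4)).1) ^ 2 + ((P t 4).2 - (P t (sw 4)).2) ^ 2)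
      = w t 4 + w t (sw 4)
    rw [s4]
    simp only [P, w, Matrix.cons_val]
    rw [show (0 - -(t ^ 2 - 4)) ^ 2 + (1 - -(4 * t - 1)) ^ 2 = (t ^ 2 + 4) ^ 2 by ring, e1]
    ring
  · show Real.sqrt (((P t 5).1 - (P t (sw 5)).1) ^ 2 + ((P t 5).2 - (P t (sw 5)).2) ^ 2)
      = w t 5 + w t (sw 5)
    rw [s5]
    simp only [P, w, Matrix.cons_val]
    rw [show (0 - t ^ 2) ^ 2 + ((0 : ℝ) - 0) ^ 2 = (t ^ 2) ^ 2 by ring, e2]
    ring

/-- A point of the closed ball with diameter `a b` sees `a b` under a non-acute angle. -/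
theorem ball_inner {d : ℕ} (x a b : EuclideanSpace ℝ (Fin d))
    (h : x ∈ Metric.closedBall (midpoint ℝ a b) (dist a b / 2)) :
    inner ℝ (x - a) (x - b) ≤ 0 := by
  rw [Metric.mem_closedBall] at h
  have hm : x - midpoint ℝ a b = (1/2 : ℝ) • ((x - a) + (x - b)) := by
    rw [midpoint_eq_smul_add, invOf_eq_inv]
    module
  have hd : a - b = (x - b) - (x - a) := by abel
  rw [dist_eq_norm, dist_eq_norm, hm, hd] at h
  rw [norm_smul] at h
  generalize x - a = u at *
  generalize x - b = v at *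
  have h2 : ‖u + v‖ ≤ ‖v - u‖ := by
    have : ‖(1/2 : ℝ)‖ = 1/2 := by norm_num
    rw [this] at h
    linarith
  have h3 : ‖u + v‖ ^ 2 ≤ ‖v - u‖ ^ 2 := by
    have := norm_nonneg (u + v)
    nlinarith
  rw [norm_add_sq_real, norm_sub_sq_real] at h3
  have h4 : inner ℝ v u = inner ℝ u v := real_inner_comm u v
  linarith

theorem inner_pt {m : ℕ} (x : EuclideanSpace ℝ (Fin (m + 2))) (v v' : ℝ × ℝ) :
    (x 0 - v.1) * (x 0 - v'.1) + (x 1 - v.2) * (x 1 - v'.2) ≤
      inner ℝ (x - pt m v) (x - pt m v') := by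
  rw [PiLp.inner_apply, Fin.sum_univ_succ, Fin.sum_univ_succ]
  have h : ∀ i : Fin m, 0 ≤ inner ℝ ((x - pt m v) i.succ.succ) ((x - pt m v') i.succ.succ) := by
    intro i
    simp only [PiLp.sub_apply, pt_succ, sub_zero, RCLike.inner_apply, conj_trivial]
    exact mul_self_nonneg _
  have h' := Finset.sum_nonneg (fun i (_ : i ∈ Finset.univ) => h i)
  rw [show (Fin.succ (0 : Fin (m + 1))) = 1 from rfl]
  simp only [PiLp.sub_apply, pt_zero, pt_one, RCLike.inner_apply, conj_trivial] at h' ⊢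
  linarith [mul_comm (x 0 - v.1) (x 0 - v'.1), mul_comm (x 1 - v.2) (x 1 - v'.2)]

/-- **No common ball of radius proportional to the minimum distance, in every dimension at
least two.** For every `d ≥ 2` and every `ε > 0` there are an even number `2 n` of distinct points
`p i` of `R^d` with minimum distance `r > 0`, and a perfect matching of them (the pairs
`{p i, p (σ i)}` of a fixed-point-free involution `σ`) of the largest possible total length among
all perfect matchings, such that the intersection of the closed balls having the segments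
`p i, p (σ i)` as diameters contains no closed ball of radius `ε * r`. -/
theorem result :
    ∀ d : ℕ, 2 ≤ d → ∀ ε : ℝ, 0 < ε →
      ∃ (n : ℕ) (p : Fin (2 * n) → EuclideanSpace ℝ (Fin d)) (r : ℝ)
        (σ : Equiv.Perm (Fin (2 * n))),
        Function.Injective p ∧
        -- `r` is the minimum distance
        0 < r ∧ (∀ i j, i ≠ j → r ≤ dist (p i) (p j)) ∧ (∃ i j, i ≠ j ∧ dist (p i) (p j) = r) ∧
        -- `σ` is a perfect matching
        (∀ i, σ (σ i) = i) ∧ (∀ i, σ i ≠ i) ∧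
        -- it is a max-sum matching
        (∀ τ : Equiv.Perm (Fin (2 * n)), (∀ i, τ (τ i) = i) → (∀ i, τ i ≠ i) →
          ∑ i, dist (p i) (p (τ i)) ≤ ∑ i, dist (p i) (p (σ i))) ∧
        -- the closed balls induced by its pairs have no common ball of radius `ε * r`
        ¬ ∃ z : EuclideanSpace ℝ (Fin d), Metric.closedBall z (ε * r) ⊆
          ⋂ i, Metric.closedBall (midpoint ℝ (p i) (p (σ i))) (dist (p i) (p (σ i)) / 2) := by
  intro d hd ε hε
  obtain ⟨m, rfl⟩ : ∃ m, d = m + 2 := ⟨d - 2, by omega⟩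
  obtain ⟨t, ht⟩ : ∃ t, t = 5 + 3 / ε := ⟨_, rfl⟩
  have ht5 : 5 ≤ t := by rw [ht]; have := div_pos (by norm_num : (0:ℝ) < 3) hε; linarith
  have hεt : ε * t = 5 * ε + 3 := by rw [ht]; field_simp
  have hdist : ∀ i j, dist (pt m (P t i)) (pt m (P t j)) =
      Real.sqrt (((P t i).1 - (P t j).1) ^ 2 + ((P t i).2 - (P t j).2) ^ 2) := fun i j =>
    dist_pt m _ _
  have h1 : ∀ i j, i ≠ j → 1 ≤ dist (pt m (P t i)) (pt m (P t j)) := by
    intro i j hij
    rcases lt_or_gt_of_ne hij with h | h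
    · rw [hdist]; exact one_le t ht5 i j h
    · rw [dist_comm, hdist]; exact one_le t ht5 j i h
  have hw : ∀ i j, i ≠ j → dist (pt m (P t i)) (pt m (P t j)) ≤ w t i + w t j := by
    intro i j hij
    rcases lt_or_gt_of_ne hij with h | h
    · rw [hdist]; exact le_w t ht5 i j h
    · rw [dist_comm, hdist, add_comm (w t i)]; exact le_w t ht5 j i h
  refine ⟨3, fun i => pt m (P t i), 1, sw, ?_, one_pos, h1, ⟨4, 5, by decide, ?_⟩, by decide,
    by decide, ?_, ?_⟩
  · intro i j hij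
    by_contra hne
    have := h1 i j hne
    rw [show pt m (P t i) = pt m (P t j) from hij, dist_self] at this
    linarith
  · rw [hdist]
    simp only [P, Matrix.cons_val]
    norm_num
  · intro τ _ hτ
    have e1 : ∑ i, dist (pt m (P t i)) (pt m (P t (τ i))) ≤ ∑ i, (w t i + w t (τ i)) :=
      Finset.sum_le_sum fun i _ => hw i (τ i) (fun h => hτ i h.symm)
    have e2 : ∑ i, dist (pt m (P t i)) (pt m (P t (sw i))) = ∑ i, (w t i + w t (sw i)) :=
      Finset.sum_congr rfl fun i _ => by rw [hdist]; exact matched t ht5 i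
    have e3 : ∑ i, w t (τ i) = ∑ i, w t i := Equiv.sum_comp τ (w t)
    have e4 : ∑ i, w t (sw i) = ∑ i, w t i := Equiv.sum_comp sw (w t)
    have e5 : ∑ i, (w t i + w t (τ i)) = ∑ i, w t i + ∑ i, w t (τ i) := Finset.sum_add_distrib
    have e6 : ∑ i, (w t i + w t (sw i)) = ∑ i, w t i + ∑ i, w t (sw i) := Finset.sum_add_distrib
    show ∑ i, dist (pt m (P t i)) (pt m (P t (τ i))) ≤
      ∑ i, dist (pt m (P t i)) (pt m (P t (sw i)))
    rw [e2, e6, e4]
    rw [e5, e3] at e1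
    exact e1
  · rintro ⟨z, hz⟩
    rw [mul_one] at hz
    have s0 : sw 0 = 3 := by decide
    have s1 : sw 1 = 4 := by decide
    have s2 : sw 2 = 5 := by decide
    -- every point of the intersection has its first coordinate in a short interval
    have key : ∀ x ∈ ⋂ i, Metric.closedBall (midpoint ℝ (pt m (P t i)) (pt m (P t (sw i))))
        (dist (pt m (P t i)) (pt m (P t (sw i))) / 2), 0 ≤ x 0 ∧ (t ^ 2 - 4) * x 0 ≤ 4 * t - 1 := by
      intro x hx
      rw [Set.mem_iInter] at hx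
      have h0 := (inner_pt x _ _).trans (ball_inner _ _ _ (hx 0))
      have h1 := (inner_pt x _ _).trans (ball_inner _ _ _ (hx 1))
      have h2 := (inner_pt x _ _).trans (ball_inner _ _ _ (hx 2))
      rw [s0] at h0
      rw [s1] at h1
      rw [s2] at h2
      simp only [P, Matrix.cons_val] at h0 h1 h2
      have hx0 : 0 ≤ x 0 := by
        by_contra hneg
        push Not at hneg
        nlinarith [sq_nonneg (x 1)]
      refine ⟨hx0, ?_⟩
      nlinarith [sq_nonneg (x 1), sq_nonneg (x 0)]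
    have hmem : ∀ s : ℝ, |s| ≤ ε → z + PiLp.single 2 0 s ∈ Metric.closedBall z ε := by
      intro s hs
      rw [Metric.mem_closedBall, dist_eq_norm, add_sub_cancel_left, PiLp.norm_single,
        Real.norm_eq_abs]
      exact hs
    have k1 := key _ (hz (hmem (-ε) (by rw [abs_neg, abs_of_pos hε])))
    have k2 := key _ (hz (hmem ε (by rw [abs_of_pos hε])))
    simp only [PiLp.add_apply, PiLp.single_apply, if_true] at k1 k2
    have k3 : 2 * ε ≤ z 0 + ε := by linarith [k1.1]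
    have k4 : (t ^ 2 - 4) * (2 * ε) ≤ 4 * t - 1 := by
      refine le_trans ?_ k2.2
      apply mul_le_mul_of_nonneg_left k3
      nlinarith
    nlinarith

end Pool.Agent.Results.MP_70625d_co.NoCommonBall
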